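import Mathlib

set_option autoImplicit false
set_option linter.unusedSectionVars false

namespace Pool.Agent.Results.MP_2ce84e_co.No

/-- `win G k n t c`: with `n` moves left, partial colouring `c` and Alice to move iff `t`, Alice
can force that at the end every closed neighbourhood contains all `k` colours. -/
def win {V : Type} [DecidableEq V] (G : SimpleGraph V) (k : ℕ) :
    ℕ → Bool → (V → Option (Fin k)) → Prop
  | 0, _, c => ∀ x col, ∃ y, (y = x ∨ G.Adj x y) ∧ c y = some col
  | n + 1, true, c => ∃ v, c v = none ∧ ∃ col, win G k n false (Function.update c v (some col))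
  | n + 1, false, c => ∀ v, c v = none → ∀ col, win G k n true (Function.update c v (some col))

/-- The game domatic number (`t = true`, Alice starts) and the delayed game domatic number
(`t = false`, Bob starts). -/
noncomputable def gam {V : Type} [DecidableEq V] [Fintype V] (G : SimpleGraph V) (t : Bool) : ℕ :=
  sSup {k | 1 ≤ k ∧ win G k (Fintype.card V) t fun _ => none}

section
variable {V : Type} [DecidableEq V] [Fintype V] (G : SimpleGraph V) [DecidableRel G.Adj] {k : ℕ}

/-- Number of uncoloured vertices. -/
def free (c : V → Option (Fin k)) : ℕ := (Finset.univ.filter fun v => c v = none).card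

lemma free_upd {n : ℕ} {c : V → Option (Fin k)} (hn : n + 1 ≤ free c) (v : V) (col : Fin k) :
    n ≤ free (Function.update c v (some col)) := by
  have : (Finset.univ.filter fun w => c w = none).erase v ⊆
      Finset.univ.filter fun w => Function.update c v (some col) w = none := fun w hw => by
    simp only [Finset.mem_erase, Finset.mem_filter] at hw ⊢
    rw [Function.update_of_ne hw.1]; exact hw.2
  have := Finset.card_le_card this
  have := Finset.pred_card_le_card_erase (s := Finset.univ.filter fun w => c w = none) (a := v)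
  unfold free at *
  omega

lemma free_ex {n : ℕ} {c : V → Option (Fin k)} (hn : n + 1 ≤ free c) : ∃ v, c v = none := by
  obtain ⟨v, hv⟩ := Finset.card_pos.1 (n.succ_pos.trans_le hn)
  exact ⟨v, by simpa using hv⟩

lemma bound (hk : 1 ≤ k) (x : V) : ∀ n t (c : V → Option (Fin k)),
    n ≤ free c → win G k n t c → k ≤ G.degree x + 1
  | 0, _, c, _, h => by
    choose f h1 h2 using h x
    have : (Finset.univ : Finset (Fin k)).card ≤ (insert x (G.neighborFinset x)).card :=
      Finset.card_le_card_of_injOn f (fun a _ => by simpa using h1 a)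
        fun a _ b _ e => Option.some.inj ((h2 a).symm.trans (e ▸ h2 b))
    simpa using le_trans this (Finset.card_insert_le _ _)
  | n + 1, false, c, hn, h => by
    obtain ⟨v, hv⟩ := free_ex hn
    exact bound hk x n _ _ (free_upd hn v ⟨0, hk⟩) (h v hv _)
  | n + 1, true, c, hn, h => by
    obtain ⟨v, -, col, h⟩ := h
    exact bound hk x n _ _ (free_upd hn v col) h

/-- Every closed neighbourhood already has every colour. -/
abbrev done (c : V → Option (Fin k)) : Prop := ∀ x col, ∃ y, (y = x ∨ G.Adj x y) ∧ c y = some col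

/-- Some closed neighbourhood is full and misses a colour. -/
abbrev dead (c : V → Option (Fin k)) : Prop :=
  ∃ x col, ∀ y, (y = x ∨ G.Adj x y) → c y ≠ none ∧ c y ≠ some col

lemma done_upd {c : V → Option (Fin k)} (h : done G c) {v : V} (hv : c v = none) (col : Fin k) :
    done G (Function.update c v (some col)) := fun x d => by
  obtain ⟨y, h1, h2⟩ := h x d
  refine ⟨y, h1, ?_⟩
  rw [Function.update_of_ne (by rintro rfl; simp [hv] at h2), h2]

lemma dead_upd {c : V → Option (Fin k)} (h : dead G c) {v : V} (hv : c v = none) (col : Fin k) :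
    dead G (Function.update c v (some col)) := by
  obtain ⟨x, d, h⟩ := h
  refine ⟨x, d, fun y hy => ?_⟩
  rw [Function.update_of_ne (by rintro rfl; exact (h y hy).1 hv)]
  exact h y hy

lemma win_done (hk : 1 ≤ k) : ∀ n t (c : V → Option (Fin k)), n ≤ free c → done G c → win G k n t c
  | 0, _, _, _, h => h
  | n + 1, false, _, hn, h => fun v hv col => win_done hk n _ _ (free_upd hn v col) (done_upd G h hv col)
  | n + 1, true, _, hn, h => by
    obtain ⟨v, hv⟩ := free_ex hn
    exact ⟨v, hv, ⟨0, hk⟩, win_done hk n _ _ (free_upd hn v _) (done_upd G h hv _)⟩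

lemma win_dead (hk : 1 ≤ k) : ∀ n t (c : V → Option (Fin k)), n ≤ free c → dead G c → ¬ win G k n t c
  | 0, _, _, _, ⟨x, d, h⟩ => fun w => by
    obtain ⟨y, h1, h2⟩ := w x d
    exact (h y h1).2 h2
  | n + 1, true, _, hn, h => fun ⟨v, hv, col, w⟩ =>
    win_dead hk n _ _ (free_upd hn v col) (dead_upd G h hv col) w
  | n + 1, false, _, hn, h => fun w => by
    obtain ⟨v, hv⟩ := free_ex hn
    exact win_dead hk n _ _ (free_upd hn v _) (dead_upd G h hv ⟨0, hk⟩) (w v hv _)

/-- The game value with early stopping. -/
def ev : ℕ → Bool → (V → Option (Fin k)) → Prop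
  | 0, _, c => done G c
  | n + 1, true, c => ¬ dead G c ∧ (done G c ∨
      ∃ v, c v = none ∧ ∃ col, ev n false (Function.update c v (some col)))
  | n + 1, false, c => ¬ dead G c ∧ (done G c ∨
      ∀ v, c v = none → ∀ col, ev n true (Function.update c v (some col)))

instance dec : ∀ n t (c : V → Option (Fin k)), Decidable (ev G n t c)
  | 0, _, _ => by unfold ev; infer_instance
  | n + 1, true, _ => by haveI := dec n; unfold ev; infer_instance
  | n + 1, false, _ => by haveI := dec n; unfold ev; infer_instance

lemma win_ev (hk : 1 ≤ k) : ∀ n t (c : V → Option (Fin k)), n ≤ free c →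
    (win G k n t c ↔ ev G n t c)
  | 0, _, _, _ => Iff.rfl
  | n + 1, true, c, hn => by
    refine ⟨fun w => ⟨fun d => win_dead G hk _ _ _ hn d w, Or.inr ?_⟩, fun ⟨_, h⟩ => ?_⟩
    · obtain ⟨v, hv, col, w⟩ := w
      exact ⟨v, hv, col, (win_ev hk n _ _ (free_upd hn v col)).1 w⟩
    · rcases h with h | ⟨v, hv, col, w⟩
      · exact win_done G hk _ _ _ hn h
      · exact ⟨v, hv, col, (win_ev hk n _ _ (free_upd hn v col)).2 w⟩
  | n + 1, false, c, hn => by
    refine ⟨fun w => ⟨fun d => win_dead G hk _ _ _ hn d w, Or.inr fun v hv col =>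
      (win_ev hk n _ _ (free_upd hn v col)).1 (w v hv col)⟩, fun ⟨_, h⟩ => ?_⟩
    rcases h with h | h
    · exact win_done G hk _ _ _ hn h
    · exact fun v hv col => (win_ev hk n _ _ (free_upd hn v col)).2 (h v hv col)

lemma gam_eq (t : Bool) (x : V) (m : ℕ)
    (h1 : 1 ≤ m ∧ ev G (k := m) (Fintype.card V) t fun _ => none)
    (h2 : G.degree x ≤ m ∧
      (G.degree x = m → ¬ ev G (k := m + 1) (Fintype.card V) t fun _ => none)) :
    gam G t = m :=
  IsGreatest.csSup_eq ⟨⟨h1.1, (win_ev G h1.1 _ _ _ (by simp [free])).2 h1.2⟩,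
    fun k hk => not_lt.1 fun h => by
      have := bound G hk.1 x _ t _ (by simp [free]) hk.2
      obtain rfl : k = m + 1 := by omega
      exact h2.2 (by omega) ((win_ev G hk.1 _ _ _ (by simp [free])).1 hk.2)⟩

lemma free_eq {c : V → Option (Fin k)} {v : V} (hv : c v = none) (col : Fin k) :
    free (Function.update c v (some col)) + 1 = free c := by
  have : (Finset.univ.filter fun w => Function.update c v (some col) w = none) =
      (Finset.univ.filter fun w => c w = none).erase v := by
    ext w
    by_cases h : w = v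
    · simp [h]
    · simp [h]
  unfold free
  rw [this, Finset.card_erase_add_one (by simpa using hv)]

/-- A leaf and even order: Bob wins the A-game with two colours. -/
lemma leaf {x y : V} (hxy : x ≠ y) (hN : ∀ z, G.Adj x z → z = y) :
    ∀ s (c : V → Option (Fin 2)), free c = 2 * s → c x = none → c y = none →
      ¬ win G 2 (2 * s) true c
  | 0, c, hf, hx, _ => fun _ => by have := free_eq hx 0; omega
  | s + 1, c, hf, hx, hy => fun ⟨v, hv, col, w⟩ => by
    have h1 := free_eq hv col
    have hne : ∀ a : Fin 2, a ≠ a + 1 := by decide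
    by_cases h : v = x
    · subst h
      have hy' : Function.update c v (some col) y = none := by
        rw [Function.update_of_ne hxy.symm, hy]
      refine win_dead G (by norm_num) (2 * s) _ _ (by have := free_eq hy' col; omega)
        ⟨v, col + 1, fun z hz => ?_⟩ (w y hy' col)
      rcases hz with rfl | hz
      · simp [Function.update_of_ne hxy, hne]
      · simp [hN z hz, hne]
    by_cases h' : v = y
    · subst h'
      have hx' : Function.update c v (some col) x = none := by
        rw [Function.update_of_ne hxy, hx]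
      refine win_dead G (by norm_num) (2 * s) _ _ (by have := free_eq hx' col; omega)
        ⟨x, col + 1, fun z hz => ?_⟩ (w x hx' col)
      rcases hz with rfl | hz
      · simp [hne]
      · simp [hN z hz, Function.update_of_ne hxy.symm, hne]
    have hx' : Function.update c v (some col) x = none := by
      rw [Function.update_of_ne (Ne.symm h), hx]
    have hy' : Function.update (Function.update c v (some col)) x (some 0) y = none := by
      rw [Function.update_of_ne hxy.symm, Function.update_of_ne (Ne.symm h'), hy]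
    have e1 := free_eq hx' 0
    have e2 := free_eq hy' 0
    obtain ⟨z, hz⟩ := free_ex (n := 0) (c := Function.update (Function.update
      (Function.update c v (some col)) x (some 0)) y (some 0)) (by omega)
    have zy : z ≠ y := by rintro rfl; simp at hz
    rw [Function.update_of_ne zy] at hz
    have zx : z ≠ x := by rintro rfl; simp at hz
    rw [Function.update_of_ne zx] at hz
    refine leaf hxy hN s _ (by have := free_eq hz 0; omega) ?_ ?_ (w z hz 0)
    · rw [Function.update_of_ne zx.symm, hx']
    · rw [Function.update_of_ne zy.symm, Function.update_of_ne (Ne.symm h'), hy]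

/-- Alice answers in the component where Bob has just played. -/
lemma sum_win {W : Type} [DecidableEq W] [Fintype W] (H : SimpleGraph W) :
    ∀ s p q (c : V ⊕ W → Option (Fin k)), p + q = s → free (c ∘ .inl) = 2 * p →
      free (c ∘ .inr) = 2 * q → win G k (2 * p) false (c ∘ .inl) →
      win H k (2 * q) false (c ∘ .inr) → win (G ⊕g H) k (2 * s) false c
  | 0, p, q, c, e, _, _, h1, h2 => by
    obtain ⟨rfl, rfl⟩ : p = 0 ∧ q = 0 := by omega
    rintro (x | x) col
    · obtain ⟨y, a, b⟩ := h1 x col
      exact ⟨.inl y, by simpa using a, b⟩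
    · obtain ⟨y, a, b⟩ := h2 x col
      exact ⟨.inr y, by simpa using a, b⟩
  | s + 1, p, q, c, e, f1, f2, h1, h2 => by
    rintro (x | x) hx col
    · have e1 := free_eq (c := c ∘ .inl) hx col
      obtain ⟨p, rfl⟩ : ∃ r, p = r + 1 := ⟨p - 1, by omega⟩
      obtain ⟨y, hy, d, w⟩ := h1 x hx col
      have e2 := free_eq hy d
      refine ⟨.inl y, by rw [← Sum.update_inl_comp_inl] at hy; exact hy, d,
        sum_win H s p q _ (by omega) ?_ ?_ ?_ ?_⟩ <;>
      simp only [Sum.update_inl_comp_inl, Sum.update_inl_comp_inr]
      exacts [by omega, f2, w, h2]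
    · have e1 := free_eq (c := c ∘ .inr) hx col
      obtain ⟨q, rfl⟩ : ∃ r, q = r + 1 := ⟨q - 1, by omega⟩
      obtain ⟨y, hy, d, w⟩ := h2 x hx col
      have e2 := free_eq hy d
      refine ⟨.inr y, by rw [← Sum.update_inr_comp_inr] at hy; exact hy, d,
        sum_win H s p q _ (by omega) ?_ ?_ ?_ ?_⟩ <;>
      simp only [Sum.update_inr_comp_inl, Sum.update_inr_comp_inr]
      exacts [f1, by omega, h1, w]

lemma gam_eq' (t : Bool) (x : V) (m : ℕ)
    (h1 : 1 ≤ m ∧ win G m (Fintype.card V) t fun _ => none)
    (h2 : G.degree x ≤ m ∧ (G.degree x = m → ¬ win G (m + 1) (Fintype.card V) t fun _ => none)) :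
    gam G t = m :=
  IsGreatest.csSup_eq ⟨h1, fun k hk => not_lt.1 fun h => by
    have := bound G hk.1 x _ t _ (by simp [free]) hk.2
    obtain rfl : k = m + 1 := by omega
    exact h2.2 (by omega) hk.2⟩

end

instance decSum {V W : Type} (G : SimpleGraph V) (H : SimpleGraph W) [DecidableRel G.Adj]
    [DecidableRel H.Adj] : DecidableRel (G ⊕g H).Adj
  | .inl a, .inl b => inferInstanceAs (Decidable (G.Adj a b))
  | .inr a, .inr b => inferInstanceAs (Decidable (H.Adj a b))
  | .inl _, .inr _ => isFalse (by simp)
  | .inr _, .inl _ => isFalse (by simp)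

/-- Two disjoint triangles. -/
abbrev T : SimpleGraph (Fin 3 ⊕ Fin 3) := (⊤ : SimpleGraph (Fin 3)) ⊕g (⊤ : SimpleGraph (Fin 3))

/-- The edge together with two triangles. -/
abbrev U : SimpleGraph (Fin 2 ⊕ (Fin 3 ⊕ Fin 3)) := (⊤ : SimpleGraph (Fin 2)) ⊕g T

lemma TB : ev T (k := 2) 6 false fun _ => none := by decide +kernel

lemma UA : gam U true = 1 := by
  refine gam_eq' U true (.inl 0) 1 ⟨le_rfl, ?_⟩ ⟨by decide +kernel, fun _ =>
    leaf U (x := .inl 0) (y := .inl 1) (by decide) (by decide) 4 _ (by decide) rfl rfl⟩
  have : ∀ n t (c : Fin 2 ⊕ (Fin 3 ⊕ Fin 3) → Option (Fin 1)), n = free c → win U 1 n t c := by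
    intro n
    induction n with
    | zero =>
      intro t c h x col
      refine ⟨x, Or.inl rfl, ?_⟩
      cases hc : c x with
      | none => have := free_eq hc 0; omega
      | some a => rw [Subsingleton.elim a col]
    | succ n ih =>
      intro t c h
      cases t
      · exact fun v hv col => ih _ _ (by have := free_eq hv col; omega)
      · obtain ⟨v, hv⟩ := free_ex (c := c) h.le
        exact ⟨v, hv, 0, ih _ _ (by have := free_eq hv 0; omega)⟩
  exact this _ _ _ (by decide)

lemma UB : gam U false = 2 :=
  gam_eq' U false (.inl 0) 2 ⟨by norm_num, sum_win _ T 4 1 3 _ rfl (by decide) (by decide)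
    ((win_ev _ (by norm_num) _ _ _ (by decide)).2 (by decide +kernel))
    ((win_ev _ (by norm_num) _ _ _ (by decide)).2 TB)⟩ ⟨by decide +kernel, fun h => absurd h (by decide +kernel)⟩

theorem result : ∃ (V W W' : Type) (_ : DecidableEq V) (_ : Fintype V) (_ : DecidableEq W)
    (_ : Fintype W) (_ : DecidableEq W') (_ : Fintype W') (G : SimpleGraph V) (H : SimpleGraph W)
    (H' : SimpleGraph W'), Nonempty V ∧ Nonempty W ∧ Nonempty W' ∧
      gam H true = gam H' true ∧ gam H false = gam H' false ∧
      gam (G ⊕g H) true ≠ gam (G ⊕g H') true ∧ gam (G ⊕g H) false ≠ gam (G ⊕g H') false := by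
  refine ⟨Fin 2, Fin 3, Fin 3 ⊕ Fin 3, inferInstance, inferInstance, inferInstance, inferInstance,
    inferInstance, inferInstance, ⊤, ⊤, T, inferInstance, inferInstance, inferInstance, ?_⟩
  rw [gam_eq (⊤ : SimpleGraph (Fin 3)) true 0 2 (by decide +kernel) (by decide +kernel),
    gam_eq (⊤ : SimpleGraph (Fin 3)) false 0 2 (by decide +kernel) (by decide +kernel),
    gam_eq T true (.inl 0) 2 (by decide +kernel) (by decide +kernel),
    gam_eq T false (.inl 0) 2 ⟨by norm_num, TB⟩ (by decide +kernel),
    gam_eq ((⊤ : SimpleGraph (Fin 2)) ⊕g (⊤ : SimpleGraph (Fin 3))) true (.inl 0) 2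
      (by decide +kernel) (by decide +kernel),
    gam_eq ((⊤ : SimpleGraph (Fin 2)) ⊕g (⊤ : SimpleGraph (Fin 3))) false (.inl 0) 1
      (by decide +kernel) (by decide +kernel),
    UA, UB]
  decide

end Pool.Agent.Results.MP_2ce84e_co.No
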